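import Pool.Agent.CSM.Defs

/-!
Cappell-Shaneson matrices: explicit conjugations and the graph of pairs `(a, r/s)`.
-/

namespace Pool.Agent.CSM

open Matrix

/-- The matrix with rows `(0, a, (c-1)(n-c-1))`, `(0, c, d)`, `(1, 0, n-c)`. -/
def X4 (a c d n : ℤ) : Matrix (Fin 3) (Fin 3) ℤ :=
  !![0, a, (c - 1) * (n - c - 1); 0, c, d; 1, 0, n - c]

/-- The homogeneous form of `f`. -/
def N (r s n : ℤ) : ℤ := r ^ 3 - n * r ^ 2 * s + (n - 1) * r * s ^ 2 - s ^ 3

theorem GompfEquiv.refl (A : Matrix (Fin 3) (Fin 3) ℤ) : GompfEquiv A A := Relation.EqvGen.refl _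

theorem GompfEquiv.symm {A B : Matrix (Fin 3) (Fin 3) ℤ} (h : GompfEquiv A B) : GompfEquiv B A :=
  Relation.EqvGen.symm _ _ h

theorem GompfEquiv.trans {A B C : Matrix (Fin 3) (Fin 3) ℤ} (h : GompfEquiv A B)
    (h' : GompfEquiv B C) : GompfEquiv A C :=
  Relation.EqvGen.trans _ _ _ h h'

theorem GompfEquiv.of_move {A B : Matrix (Fin 3) (Fin 3) ℤ} (h : Move A B) : GompfEquiv A B :=
  Relation.EqvGen.rel _ _ h

theorem f_odd (n c : ℤ) : Odd (f n c) := by
  unfold f
  have h1 : Even (c * (c - 1)) := Int.even_mul_pred_self c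
  have h2 : Even (c * (c + 1)) := Int.even_mul_succ_self c
  obtain ⟨u, hu⟩ := h1
  obtain ⟨v, hv⟩ := h2
  refine ⟨(c - 1) * v - n * u - 1, ?_⟩
  have : c ^ 3 - n * c ^ 2 + (n - 1) * c - 1
      = (c - 1) * (c * (c + 1)) - n * (c * (c - 1)) - 1 := by ring
  rw [this, hu, hv]
  ring

theorem f_ne_zero (n c : ℤ) : f n c ≠ 0 := by
  intro h
  have := f_odd n c
  rw [h] at this
  exact absurd this (by decide)

theorem X_eq_X4 {a c d n : ℤ} (h : a * d = -f n c) : X c d n = X4 a c d n := by
  have hd : d ≠ 0 := by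
    rintro rfl
    apply f_ne_zero n c
    linear_combination h
  have h2 : f n c = d * (-a) := by linear_combination h
  have h3 : -(f n c / d) = a := by rw [h2, Int.mul_ediv_cancel_left _ hd]; ring
  unfold X X4
  rw [h3]

theorem A0_eq : A0 = X4 1 1 1 2 := by
  unfold A0 X4
  norm_num

theorem gompf_move {a a' c d n k : ℤ} (h : a * d = -f n c) (h' : a' * d = -f (n + k * d) c) :
    GompfEquiv (X4 a c d n) (X4 a' c d (n + k * d)) := by
  rw [← X_eq_X4 h, ← X_eq_X4 h']
  exact GompfEquiv.of_move (Move.gompf c d n k ⟨-a, by linear_combination h⟩)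

theorem conj_of_intertwine {A B P : Matrix (Fin 3) (Fin 3) ℤ} (hdet : P.det = 1)
    (h : P * B = A * P) : GompfEquiv B A := by
  have hQ : P * P.adjugate = 1 := by rw [Matrix.mul_adjugate, hdet, one_smul]
  have := Move.conj B P P.adjugate hQ
  have e : P * B * P.adjugate = A := by
    rw [h, Matrix.mul_assoc, hQ, Matrix.mul_one]
  rw [e] at this
  exact GompfEquiv.of_move this

/-- Explicit conjugation. -/
theorem sim_core {r s n a d a' d' c c' l m t : ℤ} (h1 : s * c = r + a * l)
    (h2 : s * c' = r + d' * m)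
    (ht : s ^ 2 * t = 1 + l * m * (3 * r + a * l + d' * m - n * s))
    (ht2 : a * t = s * a' + m * (c ^ 2 - (n - c') * c - (c' - 1) * (n - c' - 1)))
    (ht3 : d' * t = s * d + l * (c ^ 2 - (n - c') * c - (c' - 1) * (n - c' - 1)))
    (hs : s ≠ 0) :
    GompfEquiv (X4 a' c' d' n) (X4 a c d n) := by
  have hdet : (!![s, m * (c + c' - n), a * l; l, t, l * c; 0, m, s] :
      Matrix (Fin 3) (Fin 3) ℤ).det = 1 := by
    rw [Matrix.det_fin_three]
    simp
    linear_combination ht + (-(l * m)) * (2 * h1 + h2)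
  refine conj_of_intertwine hdet ?_
  have hx : t * (c' - c) = d * m - l * a' := by
    have : s * (t * (c' - c)) = s * (d * m - l * a') := by
      linear_combination t * (h2 - h1) + m * ht3 - l * ht2
    exact mul_left_cancel₀ hs this
  unfold X4
  ext i j
  fin_cases i <;> fin_cases j <;> simp [Matrix.mul_apply, Fin.sum_univ_three]
  · linear_combination (-1) * ht2
  · linear_combination (c + c' - n) * (h1 - h2)
  · ring
  · linear_combination hx
  · linear_combination ht3
  · ring
  · linear_combination h1 - h2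

theorem N_mul (s c n : ℤ) : N (s * c) s n = s ^ 3 * f n c := by
  unfold N f; ring

theorem coprime_of_dvd_N {r s n a : ℤ} (hrs : IsCoprime r s) (ha : a ∣ N r s n) :
    IsCoprime s a := by
  have h1 : IsCoprime (r ^ 3) s := hrs.pow_left
  have h2 : IsCoprime (N r s n) s := by
    have e : N r s n = r ^ 3 + s * (-(n * r ^ 2) + (n - 1) * r * s - s ^ 2) := by unfold N; ring
    rw [e]
    exact IsCoprime.add_mul_left_left h1 _
  exact (IsCoprime.of_isCoprime_of_dvd_left h2 ha).symm

/-- Two matrices of the same trace attached to complementary divisors of `N r s n`. -/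
theorem sim {r s n a d a' d' c c' : ℤ} (hrs : IsCoprime r s) (hs : s ≠ 0)
    (hc : a ∣ s * c - r) (hc' : d' ∣ s * c' - r) (hN : a * d' = -N r s n)
    (h3 : a * d = -f n c) (h4 : a' * d' = -f n c') :
    GompfEquiv (X4 a' c' d' n) (X4 a c d n) := by
  obtain ⟨l, hl⟩ := hc
  obtain ⟨m, hm⟩ := hc'
  have h1 : s * c = r + a * l := by linear_combination hl
  have h2 : s * c' = r + d' * m := by linear_combination hm
  have hf : f n c ≠ 0 := f_ne_zero n c
  have hf' : f n c' ≠ 0 := f_ne_zero n c'
  have ha : a ≠ 0 := by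
    rintro rfl
    apply hf
    linear_combination h3
  have hd' : d' ≠ 0 := by
    rintro rfl
    apply hf'
    linear_combination h4
  set q := c ^ 2 - (n - c') * c - (c' - 1) * (n - c' - 1) with hq
  set E := 3 * r + a * l + d' * m - n * s with hE
  have key1 : d' * (s ^ 2 * (s * a' + m * q)) = d' * (a * (1 + l * m * E)) := by
    have e1 : d' * (s ^ 2 * (s * a' + m * q)) = s ^ 3 * (a' * d') + (d' * m) * (s ^ 2 * q) := by
      ring
    have e2 : d' * (a * (1 + l * m * E)) = a * d' + (a * l) * (d' * m) * E := by ring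
    have e3 : d' * m = s * c' - r := by linear_combination (-1 : ℤ) * h2
    have e4 : a * l = s * c - r := by linear_combination (-1 : ℤ) * h1
    rw [e1, e2, h4, hN, hE, e3, e4, hq]
    unfold N f
    ring
  have key1' : s ^ 2 * (s * a' + m * q) = a * (1 + l * m * E) := mul_left_cancel₀ hd' key1
  have key2 : d' * (s * a' + m * q) = a * (s * d + l * q) := by
    have e1 : d' * (s * a' + m * q) = s * (a' * d') + (d' * m) * q := by ring
    have e2 : a * (s * d + l * q) = s * (a * d) + (a * l) * q := by ring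
    have e3 : d' * m = s * c' - r := by linear_combination (-1 : ℤ) * h2
    have e4 : a * l = s * c - r := by linear_combination (-1 : ℤ) * h1
    rw [e1, e2, h3, h4, e3, e4, hq]
    unfold f
    ring
  have hcop : IsCoprime s a := coprime_of_dvd_N hrs ⟨-d', by linear_combination hN⟩
  have hdvd : a ∣ s * a' + m * q := by
    have : a ∣ s ^ 2 * (s * a' + m * q) := ⟨1 + l * m * E, key1'⟩
    exact (IsCoprime.pow_left hcop (m := 2)).symm.dvd_of_dvd_mul_left this
  obtain ⟨t, ht⟩ := hdvd
  have ht0 : s ^ 2 * t = 1 + l * m * E := by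
    rw [ht] at key1'
    apply mul_left_cancel₀ ha
    linear_combination key1'
  have ht3 : d' * t = s * d + l * q := by
    rw [ht] at key2
    apply mul_left_cancel₀ ha
    linear_combination key2
  exact sim_core h1 h2 ht0 ht.symm ht3 hs

theorem neg_sim (a c d n : ℤ) : GompfEquiv (X4 (-a) c (-d) n) (X4 a c d n) := by
  have h : (!![-1, 0, 0; 0, 1, 0; 0, 0, -1] : Matrix (Fin 3) (Fin 3) ℤ).det = 1 := by
    rw [Matrix.det_fin_three]; simp
  refine conj_of_intertwine h ?_
  unfold X4
  ext i j
  fin_cases i <;> fin_cases j <;> simp [Matrix.mul_apply, Fin.sum_univ_three]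

/-- All matrices attached to the pair `(a, c)`, for every trace, are equivalent to `A0`. -/
def Good (a c : ℤ) : Prop := ∀ n d : ℤ, a * d = -f n c → GompfEquiv (X4 a c d n) A0

theorem Good.neg {a c : ℤ} (h : Good (-a) c) : Good a c := by
  intro n d had
  exact (neg_sim a c d n).symm.trans (h n (-d) (by linear_combination had))

theorem good_one (c : ℤ) : Good 1 c := by
  intro n d had
  have h1 : GompfEquiv (X4 1 1 1 n) (X4 1 c d n) := by
    refine sim (r := 1) (s := 1) isCoprime_one_left one_ne_zero (one_dvd _) (one_dvd _) ?_ had ?_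
    · unfold N; ring
    · unfold f; ring
  have h2 : GompfEquiv (X4 1 1 1 n) (X4 1 1 1 (n + (2 - n) * 1)) := by
    refine gompf_move ?_ ?_
    · unfold f; ring
    · unfold f; ring
  have e : n + (2 - n) * 1 = 2 := by ring
  rw [e, ← A0_eq] at h2
  exact h1.symm.trans h2

theorem dvd_N_iff {r s n a c : ℤ} (hc : a ∣ s * c - r) : a ∣ N r s n ↔ a ∣ s ^ 3 * f n c := by
  obtain ⟨l, hl⟩ := hc
  have h1 : r = s * c - a * l := by linear_combination (-1 : ℤ) * hl
  have e : N r s n = s ^ 3 * f n c + a * (-(l * (3 * (s * c) ^ 2 - 3 * (s * c) * (a * l)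
      + (a * l) ^ 2 - n * s * (2 * (s * c) - a * l) + (n - 1) * s ^ 2))) := by
    rw [h1]; unfold N f; ring
  rw [e]
  constructor
  · intro h
    exact (dvd_add_left (dvd_mul_right a _)).mp h
  · intro h
    exact dvd_add h (dvd_mul_right a _)

theorem exists_point {r s d : ℤ} (h : IsCoprime s d) : ∃ c, d ∣ s * c - r := by
  obtain ⟨u, v, huv⟩ := h
  exact ⟨u * r, ⟨-(v * r), by linear_combination r * huv⟩⟩

/-- The basic step: one may change `a` by a multiple of `r s (r - s)` if `s c = r` modulo `a`. -/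
theorem Good.step {r s k a c a2 c2 : ℤ} (hs : s ≠ 0) (hrs : IsCoprime r s)
    (h1 : a ∣ s * c - r) (ha2 : a2 = a + k * (r * s * (r - s))) (h2 : a2 ∣ s * c2 - r)
    (hg : Good a2 c2) : Good a c := by
  intro n d had
  have hN1 : a ∣ N r s n := by
    rw [dvd_N_iff h1]
    exact Dvd.dvd.mul_left ⟨-d, by linear_combination had⟩ _
  obtain ⟨e, he⟩ := hN1
  have hN : a * (-e) = -N r s n := by linear_combination he
  set d' := -e with hd'
  have hNd' : d' ∣ N r s n := ⟨-a, by linear_combination hN⟩
  have hcopd : IsCoprime s d' := coprime_of_dvd_N hrs hNd'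
  obtain ⟨c', hc'⟩ := exists_point (r := r) hcopd
  have hfd : d' ∣ f n c' := by
    have := (dvd_N_iff hc').mp hNd'
    exact (IsCoprime.pow_left hcopd (m := 3)).symm.dvd_of_dvd_mul_left this
  obtain ⟨g, hg'⟩ := hfd
  have h4 : (-g) * d' = -f n c' := by linear_combination hg'
  set a' := -g with ha'
  have s1 : GompfEquiv (X4 a' c' d' n) (X4 a c d n) := sim hrs hs h1 hc' hN had h4
  -- the move
  have hN2 : N r s (n + k * d') = -(a2 * d') := by
    have : N r s (n + k * d') = N r s n - k * d' * (r * s * (r - s)) := by unfold N; ring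
    rw [this, ha2]
    linear_combination hN
  have h5 : (a' + k * (c' * (c' - 1))) * d' = -f (n + k * d') c' := by
    have : f (n + k * d') c' = f n c' - k * d' * (c' * (c' - 1)) := by unfold f; ring
    rw [this]
    linear_combination h4
  have s2 : GompfEquiv (X4 a' c' d' n) (X4 (a' + k * (c' * (c' - 1))) c' d' (n + k * d')) :=
    gompf_move h4 h5
  have hNa2 : a2 ∣ N r s (n + k * d') := ⟨-d', by linear_combination hN2⟩
  have hcopa : IsCoprime s a2 := coprime_of_dvd_N hrs hNa2
  have hfa : a2 ∣ f (n + k * d') c2 := by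
    have := (dvd_N_iff h2).mp hNa2
    exact (IsCoprime.pow_left hcopa (m := 3)).symm.dvd_of_dvd_mul_left this
  obtain ⟨w, hw⟩ := hfa
  have h6 : a2 * (-w) = -f (n + k * d') c2 := by linear_combination hw
  have s3 : GompfEquiv (X4 (a' + k * (c' * (c' - 1))) c' d' (n + k * d'))
      (X4 a2 c2 (-w) (n + k * d')) :=
    sim hrs hs h2 hc' (by linear_combination hN2) h6 h5
  exact s1.symm.trans (s2.trans (s3.trans (hg _ _ h6)))

/-- Only the residue of `c` modulo `a` matters. -/
theorem Good.congr {a c c2 : ℤ} (h : a ∣ c - c2) (hg : Good a c2) : Good a c := by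
  refine Good.step (r := c2) (s := 1) (k := 0) (a2 := a) (c2 := c2) one_ne_zero
    isCoprime_one_right ?_ (by ring) ?_ hg
  · simpa using h
  · simp

/-- Certificates: lists of quadruples `(r, s, k, c')`. -/
def check : ℤ → ℤ → List (ℤ × ℤ × ℤ × ℤ) → Bool
  | a, _, [] => a == 1 || a == -1
  | a, c, (r, s, k, c2) :: t =>
    (!(s == 0)) && (Int.gcd r s == 1) && ((s * c - r) % a == 0) &&
      ((s * c2 - r) % (a + k * (r * s * (r - s))) == 0) &&
      check (a + k * (r * s * (r - s))) c2 t

theorem good_of_check (L : List (ℤ × ℤ × ℤ × ℤ)) :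
    ∀ a c : ℤ, check a c L = true → Good a c := by
  induction L with
  | nil =>
    intro a c h
    simp only [check, Bool.or_eq_true, beq_iff_eq] at h
    rcases h with rfl | rfl
    · exact good_one c
    · exact Good.neg (by simpa using good_one c)
  | cons q t ih =>
    obtain ⟨r, s, k, c2⟩ := q
    intro a c h
    simp only [check, Bool.and_eq_true, Bool.not_eq_true', beq_eq_false_iff_ne, beq_iff_eq] at h
    obtain ⟨⟨⟨⟨h1, h2⟩, h3⟩, h4⟩, h5⟩ := h
    exact Good.step h1 (Int.isCoprime_iff_gcd_eq_one.mpr h2) (Int.dvd_of_emod_eq_zero h3) rfl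
      (Int.dvd_of_emod_eq_zero h4) (ih _ _ h5)

end Pool.Agent.CSM
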