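import Mathlib

/-!
Cappell-Shaneson matrices in the Aitchison-Rubinstein form and Gompf equivalence: definitions.
-/

namespace Pool.Agent.CSM

/-- A Cappell-Shaneson matrix: an integral `3 x 3` matrix `A` with `det A = det (A - 1) = 1`. -/
def IsCappellShaneson (A : Matrix (Fin 3) (Fin 3) ℤ) : Prop :=
  A.det = 1 ∧ (A - 1).det = 1

/-- The value at `x` of the characteristic polynomial `x^3 - n x^2 + (n-1) x - 1` of a
Cappell-Shaneson matrix of trace `n`. -/
def f (n x : ℤ) : ℤ := x ^ 3 - n * x ^ 2 + (n - 1) * x - 1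

/-- The matrix `X_{c,d,n}` of Aitchison and Rubinstein, with rows
`(0, a, (c-1)(n-c-1))`, `(0, c, d)`, `(1, 0, n-c)` where `a = -f_n(c)/d`; it is used only when
`d` divides `f_n(c)`. -/
def X (c d n : ℤ) : Matrix (Fin 3) (Fin 3) ℤ :=
  !![0, -(f n c / d), (c - 1) * (n - c - 1); 0, c, d; 1, 0, n - c]

/-- The two moves generating Gompf equivalence: similarity over the integers, and
`X_{c,d,n} -> X_{c,d,n+kd}`. -/
inductive Move : Matrix (Fin 3) (Fin 3) ℤ → Matrix (Fin 3) (Fin 3) ℤ → Prop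
  | conj (A P Q : Matrix (Fin 3) (Fin 3) ℤ) (h : P * Q = 1) : Move A (P * A * Q)
  | gompf (c d n k : ℤ) (h : d ∣ f n c) : Move (X c d n) (X c d (n + k * d))

/-- Gompf equivalence: the equivalence relation generated by the moves. -/
def GompfEquiv : Matrix (Fin 3) (Fin 3) ℤ → Matrix (Fin 3) (Fin 3) ℤ → Prop :=
  Relation.EqvGen Move

/-- The matrix `A_0`. -/
def A0 : Matrix (Fin 3) (Fin 3) ℤ := !![0, 1, 0; 0, 1, 1; 1, 0, 1]

end Pool.Agent.CSM
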