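import Pool.Agent.CSM.Table

/-!
The main theorem on Gompf equivalence of Cappell-Shaneson matrices.
-/

namespace Pool.Agent.CSM

open Matrix

theorem X4_cs {a c d n : ℤ} (h : a * d = -f n c) : IsCappellShaneson (X4 a c d n) := by
  unfold f at h
  constructor
  · unfold X4
    rw [Matrix.det_fin_three]
    simp
    linear_combination h
  · unfold X4
    rw [Matrix.det_fin_three]
    simp
    linear_combination h

theorem isCoprime_r_N {r s : ℤ} (n : ℤ) (hrs : IsCoprime r s) : IsCoprime r (N r s n) := by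
  have h : IsCoprime r (s ^ 3) := hrs.pow_right
  have e : N r s n = -(s ^ 3) + r * (r ^ 2 - n * r * s + (n - 1) * s ^ 2) := by unfold N; ring
  rw [e]
  exact (h.neg_right).add_mul_left_right _

theorem isCoprime_rs_N {r s : ℤ} (n : ℤ) (hrs : IsCoprime r s) :
    IsCoprime (r - s) (N r s n) := by
  have h0 : IsCoprime (r - s) r := by
    have h1 : IsCoprime s r := hrs.symm
    have e : r - s = -s + r * 1 := by ring
    rw [e]
    exact (h1.neg_left).add_mul_left_left 1
  have h : IsCoprime (r - s) (r ^ 3) := h0.pow_right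
  have e : N r s n = -(r ^ 3) + (r - s) * (2 * r ^ 2 + 2 * r * s + s ^ 2 - n * r * s) := by
    unfold N; ring
  rw [e]
  exact (h.neg_right).add_mul_left_right _

theorem N_odd {r s : ℤ} (n : ℤ) (hrs : IsCoprime r s) : Odd (N r s n) := by
  have key : ∀ x y z : ZMod 2, ¬ (x = 0 ∧ y = 0) →
      x ^ 3 - z * x ^ 2 * y + (z - 1) * x * y ^ 2 - y ^ 3 = 1 := by decide
  have h1 : ¬ ((r : ZMod 2) = 0 ∧ (s : ZMod 2) = 0) := by
    rintro ⟨h2, h3⟩
    rw [ZMod.intCast_zmod_eq_zero_iff_dvd] at h2 h3
    have := hrs.isUnit_of_dvd' h2 h3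
    exact absurd this (by decide)
  have h2 := key r s n h1
  rw [← Int.not_even_iff_odd, even_iff_two_dvd]
  intro h3
  have h4 : ((N r s n : ℤ) : ZMod 2) = 0 := by
    rw [ZMod.intCast_zmod_eq_zero_iff_dvd]
    exact_mod_cast h3
  unfold N at h4
  push_cast at h4
  rw [h2] at h4
  exact absurd h4 (by decide)

theorem M_even (r s : ℤ) : Even (r * s * (r - s)) := by
  rcases Int.even_or_odd r with h | h
  · exact (h.mul_right _).mul_right _
  · rcases Int.even_or_odd s with h' | h'
    · exact (h'.mul_left _).mul_right _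
    · exact (h.sub_odd h').mul_left _

theorem coprime_transfer {x M e b : ℤ} (hx : x ∣ M) (hM : M ∣ e - b) (h : IsCoprime x e) :
    IsCoprime x b := by
  obtain ⟨k, hk⟩ := hx.trans hM
  have e1 : b = e + x * (-k) := by linear_combination -hk
  rw [e1]
  exact h.add_mul_left_right _

theorem dvd_of_dvd_mod {b c : ℤ} (b' : ℤ) (h : b' = |b|) : b ∣ c - c % b' := by
  have h1 : b' ∣ c - c % b' := by
    refine ⟨c / b', ?_⟩
    have := Int.emod_add_mul_ediv c b'
    linear_combination -this
  rw [h, abs_dvd] at h1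
  rw [h]
  exact h1

/-- Small cofactors are good. -/
theorem good_b {r s b cb : ℤ} (hs : IsCoprime s b) (hr : IsCoprime r b)
    (hrs' : IsCoprime (r - s) b) (hodd : Odd b) (hcb : b ∣ s * cb - r) (hb1 : |b| < 71)
    (hb2 : ¬ (|b| = 49 ∧ 49 ∣ r ^ 2 - r * s + s ^ 2)) : Good b cb := by
  have hb0 : b ≠ 0 := by
    rintro rfl
    exact absurd hodd (by decide)
  have hpos : 0 < |b| := abs_pos.mpr hb0
  set c0 := cb % |b| with hc0
  have hd0 : b ∣ cb - c0 := dvd_of_dvd_mod |b| rfl
  obtain ⟨u, hu⟩ := hd0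
  obtain ⟨v, hv⟩ := hcb
  have hc0' : s * c0 - r = b * (v - s * u) := by linear_combination hv - s * hu
  -- coprimality of c0
  have g1 : IsCoprime c0 b := by
    have h1 : IsCoprime (s * c0) b := by
      have e : s * c0 = r + b * (v - s * u) := by linear_combination hc0'
      rw [e]
      exact hr.add_mul_left_left _
    exact IsCoprime.of_mul_left_right h1
  have g2 : IsCoprime (c0 - 1) b := by
    have h1 : IsCoprime (s * (c0 - 1)) b := by
      have e : s * (c0 - 1) = (r - s) + b * (v - s * u) := by linear_combination hc0'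
      rw [e]
      exact hrs'.add_mul_left_left _
    exact IsCoprime.of_mul_left_right h1
  have hgood : Good |b| c0 := by
    refine good_small hpos hb1 ?_ (Int.emod_nonneg _ hpos.ne') (Int.emod_lt_of_pos _ hpos) ?_
    · rcases abs_choice b with h | h <;> rw [h]
      · exact hodd
      · exact hodd.neg
    · unfold skip
      have g1' : Int.gcd c0 |b| = 1 := by
        exact Int.isCoprime_iff_gcd_eq_one.mp ((IsCoprime.abs_right_iff _ _).mpr g1)
      have g2' : Int.gcd (c0 - 1) |b| = 1 := by
        exact Int.isCoprime_iff_gcd_eq_one.mp ((IsCoprime.abs_right_iff _ _).mpr g2)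
      rw [g1', g2']
      simp only [beq_self_eq_true, Bool.not_true, Bool.false_or, Bool.and_eq_false_iff,
        beq_eq_false_iff_ne, Bool.or_eq_false_iff]
      by_contra hcon
      push Not at hcon
      obtain ⟨h49, hc19⟩ := hcon
      apply hb2
      refine ⟨h49, ?_⟩
      have h49b : (49 : ℤ) ∣ b := by rw [← h49]; exact (abs_dvd_self b)
      have hq : (49 : ℤ) ∣ c0 ^ 2 - c0 + 1 := by
        by_cases h19 : c0 = 19
        · rw [h19]; decide
        · rw [hc19 h19]; decide
      have e : r ^ 2 - r * s + s ^ 2 = s ^ 2 * (c0 ^ 2 - c0 + 1)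
          - (s * c0 - r) * (s * c0 + r - s) := by ring
      rw [e]
      refine dvd_sub (hq.mul_left _) ?_
      rw [hc0']
      exact ((h49b.mul_right _).mul_right _)
  rcases abs_choice b with h | h
  · rw [h] at hgood
    exact Good.congr ⟨u, hu⟩ hgood
  · rw [h] at hgood
    refine Good.neg ?_
    exact Good.congr ⟨-u, by linear_combination hu⟩ hgood

/-- The main theorem. -/
theorem main (n c d e r s b : ℤ) (hs : s ≠ 0) (hrs : IsCoprime r s) (hc : d ∣ s * c - r)
    (he : d * e = N r s n) (hb : r * s * (r - s) ∣ e - b) (hb1 : |b| < 71)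
    (hb2 : ¬ (|b| = 49 ∧ 49 ∣ r ^ 2 - r * s + s ^ 2)) :
    IsCappellShaneson (X c d n) ∧ GompfEquiv (X c d n) A0 := by
  have hNd : d ∣ N r s n := ⟨e, he.symm⟩
  have hNe : e ∣ N r s n := ⟨d, by rw [← he]; ring⟩
  have hcopd : IsCoprime s d := coprime_of_dvd_N hrs hNd
  have hfd : d ∣ f n c := by
    have := (dvd_N_iff hc).mp hNd
    exact (IsCoprime.pow_left hcopd (m := 3)).symm.dvd_of_dvd_mul_left this
  obtain ⟨g, hg⟩ := hfd
  have had : (-g) * d = -f n c := by linear_combination hg
  rw [X_eq_X4 had]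
  refine ⟨X4_cs had, ?_⟩
  have hcope : IsCoprime s e := coprime_of_dvd_N hrs hNe
  obtain ⟨ce, hce⟩ := exists_point (r := r) hcope
  have hfe : e ∣ f n ce := by
    have := (dvd_N_iff hce).mp hNe
    exact (IsCoprime.pow_left hcope (m := 3)).symm.dvd_of_dvd_mul_left this
  obtain ⟨w, hw⟩ := hfe
  have hwe : (-e) * w = -f n ce := by linear_combination hw
  have hce' : (-e) ∣ s * ce - r := (neg_dvd).mpr hce
  have s1 : GompfEquiv (X4 (-g) c d n) (X4 (-e) ce w n) :=
    sim hrs hs hce' hc (by linear_combination -he) hwe had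
  obtain ⟨k, hk⟩ := hb
  have hcopre : IsCoprime r e := IsCoprime.of_isCoprime_of_dvd_right (isCoprime_r_N n hrs) hNe
  have hcoprse : IsCoprime (r - s) e :=
    IsCoprime.of_isCoprime_of_dvd_right (isCoprime_rs_N n hrs) hNe
  have hM : r * s * (r - s) ∣ e - b := ⟨k, hk⟩
  have cs : IsCoprime s b := coprime_transfer (Dvd.intro_left r rfl |>.mul_right _) hM hcope
  have cr : IsCoprime r b := coprime_transfer ((dvd_mul_right r s).mul_right _) hM hcopre
  have crs : IsCoprime (r - s) b := coprime_transfer (dvd_mul_left _ _) hM hcoprse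
  have hodd : Odd b := by
    have h1 : Odd e := by
      have h2 := N_odd n hrs
      rw [← he] at h2
      exact (Int.odd_mul.mp h2).2
    have h3 : Even (e - b) := by
      rw [hk]; exact (M_even r s).mul_right _
    have h4 : b = e - (e - b) := by ring
    rw [h4]
    exact h1.sub_even h3
  obtain ⟨cb, hcb⟩ := exists_point (r := r) cs
  have hgood : Good b cb := good_b cs cr crs hodd hcb hb1 hb2
  have hgood' : Good (-b) cb := Good.neg (by simpa using hgood)
  have hgood2 : Good (-e) ce :=
    Good.step (k := k) (a2 := -b) hs hrs hce' (by linear_combination hk)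
      ((neg_dvd).mpr hcb) hgood'
  exact s1.trans (hgood2 n w hwe)

end Pool.Agent.CSM
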