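import Pool.Agent.CSM.Basic

/-!
Certificates: for every odd `b < 71` and every admissible residue `c` modulo `b` (except the two
roots of `c^2 - c + 1` modulo `49`) a path to `b = 1`.
-/

namespace Pool.Agent.CSM

/-- Certificates for `b = 1`. -/
def row1 : List (List (ℤ × ℤ × ℤ × ℤ)) :=
  [[]]

/-- Certificates for `b = 3`. -/
def row3 : List (List (ℤ × ℤ × ℤ × ℤ)) :=
  [[], [], [(-1, 1, -1, 0)]]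

/-- Certificates for `b = 5`. -/
def row5 : List (List (ℤ × ℤ × ℤ × ℤ)) :=
  [[], [], [(2, 1, -2, 0)], [(1, 2, 2, 0)], [(-1, 1, -2, 0)]]

/-- Certificates for `b = 7`. -/
def row7 : List (List (ℤ × ℤ × ℤ × ℤ)) :=
  [[], [], [(2, 1, -3, 0)], [(3, 1, -1, 0)], [(1, 2, 3, 0)], [(1, 3, 1, 0)], [(-1, 1, -3, 0)]]

/-- Certificates for `b = 9`. -/
def row9 : List (List (ℤ × ℤ × ℤ × ℤ)) :=
  [[], [], [(2, 1, -4, 0)], [], [], [(1, 2, 4, 0)], [], [], [(-1, 1, -4, 0)]]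

/-- Certificates for `b = 11`. -/
def row11 : List (List (ℤ × ℤ × ℤ × ℤ)) :=
  [[], [], [(2, 1, -5, 0)], [(3, 1, -2, 0)], [(1, 3, 2, 0)], [(-1, 2, -2, 0)], [(1, 2, 5, 0)],
    [(3, 2, -2, 0)], [(2, 3, 2, 0)], [(-2, 1, -2, 0)], [(-1, 1, -5, 0)]]

/-- Certificates for `b = 13`. -/
def row13 : List (List (ℤ × ℤ × ℤ × ℤ)) :=
  [[], [], [(2, 1, -6, 0)], [(3, 1, -2, 0)], [(-1, 3, -1, 0)], [(2, 3, 2, 0)], [(-1, 2, -2, 0)],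
    [(1, 2, 6, 0)], [(3, 2, -2, 0)], [(1, 3, 2, 0)], [(-3, 1, -1, 0)], [(-2, 1, -2, 0)],
    [(-1, 1, -6, 0)]]

/-- Certificates for `b = 15`. -/
def row15 : List (List (ℤ × ℤ × ℤ × ℤ)) :=
  [[], [], [(2, 1, -7, 0)], [], [], [], [], [], [(1, 2, 7, 0)], [], [], [], [], [],
    [(-1, 1, -7, 0)]]

/-- Certificates for `b = 17`. -/
def row17 : List (List (ℤ × ℤ × ℤ × ℤ)) :=
  [[], [], [(2, 1, -8, 0)], [(3, 1, -3, 0)], [(-1, 4, -1, 2), (-1, 1, 2, 0)],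
    [(5, 1, -1, 2), (-1, 1, 2, 0)], [(1, 3, 3, 0)], [(1, 5, 1, 2), (-1, 1, 2, 0)],
    [(-1, 2, -3, 0)], [(1, 2, 8, 0)], [(3, 2, -3, 0)], [(4, 5, 1, 2), (-1, 1, 2, 0)],
    [(2, 3, 3, 0)], [(-4, 1, -1, 2), (-1, 1, 2, 0)], [(5, 4, -1, 2), (-1, 1, 2, 0)],
    [(-2, 1, -3, 0)], [(-1, 1, -8, 0)]]

/-- Certificates for `b = 19`. -/
def row19 : List (List (ℤ × ℤ × ℤ × ℤ)) :=
  [[], [], [(2, 1, -9, 0)], [(3, 1, -3, 0)], [(1, 5, 1, 0)], [(5, 1, -1, 0)], [(5, 4, -1, 0)],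
    [(2, 3, 3, 0)], [(-3, 2, -1, 4), (1, 3, -2, 0)], [(-1, 2, -3, 0)], [(1, 2, 9, 0)],
    [(3, 2, -3, 0)], [(-2, 3, -1, 3), (3, 1, 2, 0)], [(1, 3, 3, 0)], [(-1, 4, -1, 0)],
    [(-4, 1, -1, 0)], [(4, 5, 1, 0)], [(-2, 1, -3, 0)], [(-1, 1, -9, 0)]]

/-- Certificates for `b = 21`. -/
def row21 : List (List (ℤ × ℤ × ℤ × ℤ)) :=
  [[], [], [(2, 1, -10, 0)], [], [], [(5, 1, -1, 0)], [], [], [], [], [], [(1, 2, 10, 0)], [],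
    [], [], [], [], [(1, 5, 1, 0)], [], [], [(-1, 1, -10, 0)]]

/-- Certificates for `b = 23`. -/
def row23 : List (List (ℤ × ℤ × ℤ × ℤ)) :=
  [[], [], [(2, 1, -11, 0)], [(3, 1, -4, 0)], [(4, 1, -2, 0)], [(5, 1, -1, 2), (-1, 1, -1, 0)],
    [(1, 4, 2, 0)], [(5, 4, -1, 2), (-1, 1, -1, 0)], [(1, 3, 4, 0)], [(4, 3, -2, 0)],
    [(4, 5, 1, 2), (-1, 1, -1, 0)], [(-1, 2, -4, 0)], [(1, 2, 11, 0)], [(3, 2, -4, 0)],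
    [(1, 5, 1, 2), (-1, 1, -1, 0)], [(-1, 3, -2, 0)], [(2, 3, 4, 0)],
    [(-1, 4, -1, 2), (-1, 1, -1, 0)], [(3, 4, 2, 0)], [(-4, 1, -1, 2), (-1, 1, -1, 0)],
    [(-3, 1, -2, 0)], [(-2, 1, -4, 0)], [(-1, 1, -11, 0)]]

/-- Certificates for `b = 25`. -/
def row25 : List (List (ℤ × ℤ × ℤ × ℤ)) :=
  [[], [], [(2, 1, -12, 0)], [(3, 1, -4, 0)], [(4, 1, -2, 0)], [], [], [(3, 4, 2, 0)],
    [(-1, 3, -2, 0)], [(2, 3, 4, 0)], [], [], [(-1, 2, -4, 0)], [(1, 2, 12, 0)], [(3, 2, -4, 0)],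
    [], [], [(1, 3, 4, 0)], [(4, 3, -2, 0)], [(1, 4, 2, 0)], [], [], [(-3, 1, -2, 0)],
    [(-2, 1, -4, 0)], [(-1, 1, -12, 0)]]

/-- Certificates for `b = 27`. -/
def row27 : List (List (ℤ × ℤ × ℤ × ℤ)) :=
  [[], [], [(2, 1, -13, 0)], [], [], [(5, 1, -2, 5), (2, 3, -2, 0)], [], [],
    [(5, 4, -1, 3), (3, 1, -1, 0)], [], [], [(1, 5, 1, 3), (3, 1, -1, 0)], [], [],
    [(1, 2, 13, 0)], [], [], [(4, 5, 1, 5), (1, 3, 1, 0)], [], [],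
    [(-1, 4, -2, 3), (3, 1, 2, 0)], [], [], [(-4, 1, -1, 3), (3, 1, -1, 0)], [], [],
    [(-1, 1, -13, 0)]]

/-- Certificates for `b = 29`. -/
def row29 : List (List (ℤ × ℤ × ℤ × ℤ)) :=
  [[], [], [(2, 1, -14, 0)], [(3, 1, -5, 0)], [(4, 1, -2, 4), (-1, 1, -2, 0)], [(1, 6, 1, 0)],
    [(6, 1, -1, 0)], [(6, 5, -1, 0)], [(3, 4, 3, 6), (-1, 1, 4, 0)], [(-2, 3, -1, 0)],
    [(1, 3, 5, 0)], [(4, 3, -3, 6), (-1, 1, 4, 0)], [(2, 5, 1, 0)], [(-3, 2, -1, 0)],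
    [(-1, 2, -5, 0)], [(1, 2, 14, 0)], [(3, 2, -5, 0)], [(5, 2, -1, 0)], [(3, 5, 1, 0)],
    [(-1, 3, -2, 3), (1, 2, 2, 0)], [(2, 3, 5, 0)], [(5, 3, -1, 0)],
    [(1, 4, 2, 4), (-1, 1, -2, 0)], [(-1, 5, -1, 0)], [(-5, 1, -1, 0)], [(5, 6, 1, 0)],
    [(-3, 1, -3, 4), (1, 2, -4, 0)], [(-2, 1, -5, 0)], [(-1, 1, -14, 0)]]

/-- Certificates for `b = 31`. -/
def row31 : List (List (ℤ × ℤ × ℤ × ℤ)) :=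
  [[], [], [(2, 1, -15, 0)], [(3, 1, -5, 0)], [(4, 1, -3, 4), (-1, 1, 3, 0)],
    [(5, 1, -2, 5), (1, 2, -5, 0)], [(6, 1, -1, 0)], [(4, 5, 2, 8), (-1, 1, 5, 0)],
    [(1, 4, 3, 4), (-1, 1, 3, 0)], [(5, 4, -2, 8), (-1, 1, 5, 0)],
    [(-1, 3, -3, 3), (1, 2, -3, 0)], [(2, 3, 5, 0)], [(5, 3, -1, 0)], [(3, 5, 1, 0)],
    [(-3, 2, -1, 0)], [(-1, 2, -5, 0)], [(1, 2, 15, 0)], [(3, 2, -5, 0)], [(5, 2, -1, 0)],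
    [(2, 5, 1, 0)], [(-2, 3, -1, 0)], [(1, 3, 5, 0)], [(4, 3, -2, 6), (-1, 1, -3, 0)],
    [(-1, 4, -2, 2), (2, 1, 5, 0)], [(3, 4, 2, 6), (-1, 1, -3, 0)], [(1, 5, 2, 2), (2, 1, 5, 0)],
    [(-5, 1, -1, 0)], [(-4, 1, -2, 5), (1, 2, -5, 0)], [(-3, 1, -2, 4), (1, 2, 3, 0)],
    [(-2, 1, -5, 0)], [(-1, 1, -15, 0)]]

/-- Certificates for `b = 33`. -/
def row33 : List (List (ℤ × ℤ × ℤ × ℤ)) :=
  [[], [], [(2, 1, -16, 0)], [], [], [(5, 1, -1, 5), (2, 3, 2, 0)], [], [],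
    [(-1, 4, -1, 3), (3, 1, -2, 0)], [], [], [], [], [], [(4, 5, 2, 5), (1, 3, -1, 0)], [], [],
    [(1, 2, 16, 0)], [], [], [(1, 5, 2, 3), (3, 1, 1, 0)], [], [], [], [], [],
    [(5, 4, -2, 3), (3, 1, 1, 0)], [], [], [(-4, 1, -2, 3), (3, 1, 1, 0)], [], [],
    [(-1, 1, -16, 0)]]

/-- Certificates for `b = 35`. -/
def row35 : List (List (ℤ × ℤ × ℤ × ℤ)) :=
  [[], [], [(2, 1, -17, 0)], [(3, 1, -6, 0)], [(4, 1, -3, 0)], [], [], [], [], [(1, 4, 3, 0)],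
    [], [], [(1, 3, 6, 0)], [(4, 3, -3, 0)], [], [], [], [(-1, 2, -6, 0)], [(1, 2, 17, 0)],
    [(3, 2, -6, 0)], [], [], [], [(-1, 3, -3, 0)], [(2, 3, 6, 0)], [], [], [(3, 4, 3, 0)], [],
    [], [], [], [(-3, 1, -3, 0)], [(-2, 1, -6, 0)], [(-1, 1, -17, 0)]]

/-- Certificates for `b = 37`. -/
def row37 : List (List (ℤ × ℤ × ℤ × ℤ)) :=
  [[], [], [(2, 1, -18, 0)], [(3, 1, -6, 0)], [(4, 1, -3, 0)], [(5, 1, -2, 2), (-1, 1, 2, 0)],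
    [(-1, 6, -1, 4), (-1, 1, 3, 0)], [(7, 1, -1, 2), (2, 1, 3, 0)],
    [(3, 5, 1, 2), (2, 1, -3, 0)], [(-1, 4, -2, 2), (-1, 1, 2, 0)], [(3, 4, 3, 0)],
    [(11, 1, -1, 11), (4, 7, -1, 10), (-1, 1, -5, 0)], [(-1, 3, -3, 0)], [(2, 3, 6, 0)],
    [(5, 3, -1, 4), (1, 2, 3, 0)], [(1, 5, 2, 2), (-1, 1, 2, 0)], [(1, 7, 1, 3), (1, 2, -3, 0)],
    [(-3, 2, -1, 2), (2, 1, -3, 0)], [(-1, 2, -6, 0)], [(1, 2, 18, 0)], [(3, 2, -6, 0)],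
    [(5, 2, -1, 6), (-1, 1, -3, 0)], [(6, 7, 1, 3), (1, 2, -3, 0)],
    [(4, 5, 2, 2), (-1, 1, 2, 0)], [(-2, 3, -1, 4), (1, 2, 3, 0)], [(1, 3, 6, 0)],
    [(4, 3, -3, 0)], [(1, 11, 1, 20), (7, 4, 1, 10), (-1, 1, -5, 0)], [(1, 4, 3, 0)],
    [(5, 4, -2, 2), (-1, 1, 2, 0)], [(2, 5, 1, 6), (-1, 1, -3, 0)],
    [(-6, 1, -1, 4), (-1, 1, 3, 0)], [(7, 6, -1, 2), (2, 1, 3, 0)],
    [(-4, 1, -2, 2), (-1, 1, 2, 0)], [(-3, 1, -3, 0)], [(-2, 1, -6, 0)], [(-1, 1, -18, 0)]]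

/-- Certificates for `b = 39`. -/
def row39 : List (List (ℤ × ℤ × ℤ × ℤ)) :=
  [[], [], [(2, 1, -19, 0)], [], [], [(5, 1, -2, 0)], [], [], [(1, 5, 2, 0)], [], [],
    [(5, 4, -2, 0)], [], [], [], [], [], [(7, 5, -1, 20), (-2, 3, 1, 0)], [], [],
    [(1, 2, 19, 0)], [], [], [(-2, 5, -1, 12), (5, 3, 1, 0)], [], [], [], [], [],
    [(-1, 4, -2, 0)], [], [], [(4, 5, 2, 0)], [], [], [(-4, 1, -2, 0)], [], [], [(-1, 1, -19, 0)]]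

/-- Certificates for `b = 41`. -/
def row41 : List (List (ℤ × ℤ × ℤ × ℤ)) :=
  [[], [], [(2, 1, -20, 0)], [(3, 1, -7, 0)], [(4, 1, -3, 4), (-1, 1, -2, 0)], [(5, 1, -2, 0)],
    [(1, 7, 1, 0)], [(7, 1, -1, 0)], [(7, 6, -1, 0)], [(4, 5, 2, 0)], [(-1, 4, -2, 0)],
    [(3, 4, 4, 6), (-1, 1, 4, 0)], [(2, 7, 1, 21), (5, 3, 1, 0)],
    [(-2, 3, -1, 3), (3, 1, -2, 0)], [(1, 3, 7, 0)], [(4, 3, -4, 6), (-1, 1, 4, 0)],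
    [(-2, 5, -1, 17), (5, 2, 1, 0)], [(3, 5, 1, 5), (-1, 2, -2, 0)],
    [(-5, 2, -1, 12), (2, 5, -1, 0)], [(-3, 2, -1, 4), (1, 3, 2, 0)], [(-1, 2, -7, 0)],
    [(1, 2, 20, 0)], [(3, 2, -7, 0)], [(5, 2, -1, 8), (2, 3, 2, 0)],
    [(7, 2, -1, 18), (3, 5, -1, 0)], [(2, 5, 1, 7), (3, 2, -2, 0)],
    [(7, 5, -1, 13), (-3, 2, 1, 0)], [(-1, 3, -3, 3), (1, 2, 2, 0)], [(2, 3, 7, 0)],
    [(5, 3, -1, 9), (-2, 1, -2, 0)], [(5, 7, 1, 9), (-2, 3, 1, 0)],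
    [(1, 4, 3, 4), (-1, 1, -2, 0)], [(5, 4, -2, 0)], [(1, 5, 2, 0)], [(-1, 6, -1, 0)],
    [(-6, 1, -1, 0)], [(6, 7, 1, 0)], [(-4, 1, -2, 0)], [(-3, 1, -4, 4), (1, 2, -4, 0)],
    [(-2, 1, -7, 0)], [(-1, 1, -20, 0)]]

/-- Certificates for `b = 43`. -/
def row43 : List (List (ℤ × ℤ × ℤ × ℤ)) :=
  [[], [], [(2, 1, -21, 0)], [(3, 1, -7, 0)], [(4, 1, -4, 4), (-1, 1, 3, 0)],
    [(5, 1, -2, 2), (-1, 1, -1, 0)], [(6, 1, -2, 6), (1, 3, -3, 0)], [(-1, 6, -1, 0)],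
    [(5, 6, 1, 3), (3, 1, -2, 0)], [(2, 5, 1, 3), (3, 1, -2, 0)],
    [(7, 5, -1, 23), (-4, 1, 1, 3), (3, 1, 1, 0)], [(1, 4, 4, 4), (-1, 1, 3, 0)],
    [(5, 4, -2, 2), (-1, 1, -1, 0)], [(5, 7, 1, 20), (-1, 4, 2, 3), (3, 1, -2, 0)],
    [(-1, 3, -4, 3), (1, 2, -3, 0)], [(2, 3, 7, 0)], [(5, 3, -1, 6), (-1, 2, -2, 0)],
    [(-1, 5, -1, 5), (2, 3, 2, 0)], [(4, 5, 2, 2), (-1, 1, -1, 0)],
    [(-5, 2, -1, 11), (1, 5, -1, 3), (3, 1, 1, 0)], [(-3, 2, -1, 5), (2, 3, 2, 0)],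
    [(-1, 2, -7, 0)], [(1, 2, 21, 0)], [(3, 2, -7, 0)], [(5, 2, -1, 9), (1, 3, 2, 0)],
    [(10, 9, -1, 22), (-3, 2, 2, 5), (2, 3, 2, 0)], [(1, 5, 2, 2), (-1, 1, -1, 0)],
    [(1, 8, 1, 5), (2, 3, -2, 0)], [(-2, 3, -1, 8), (3, 2, -2, 0)], [(1, 3, 7, 0)],
    [(4, 3, -3, 6), (-1, 1, -3, 0)], [(2, 7, 1, 8), (5, 4, 1, 3), (3, 1, 1, 0)],
    [(-1, 4, -2, 2), (-1, 1, -1, 0)], [(3, 4, 3, 6), (-1, 1, -3, 0)],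
    [(-9, 1, -1, 38), (2, 5, -2, 3), (3, 1, -2, 0)], [(3, 5, 1, 11), (-2, 1, -2, 0)],
    [(1, 6, 2, 3), (3, 1, 3, 0)], [(1, 7, 1, 0)], [(8, 7, -1, 3), (3, 1, 2, 0)],
    [(-4, 1, -2, 2), (-1, 1, -1, 0)], [(-3, 1, -3, 4), (1, 2, 3, 0)], [(-2, 1, -7, 0)],
    [(-1, 1, -21, 0)]]

/-- Certificates for `b = 45`. -/
def row45 : List (List (ℤ × ℤ × ℤ × ℤ)) :=
  [[], [], [(2, 1, -22, 0)], [], [], [], [], [], [(8, 1, -1, 8), (2, 3, -2, 0)], [], [], [], [],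
    [], [(8, 7, -1, 9), (-2, 1, 2, 0)], [], [], [(1, 8, 1, 7), (3, 2, 2, 0)], [], [], [], [], [],
    [(1, 2, 22, 0)], [], [], [], [], [], [(7, 8, 1, 5), (-1, 2, 2, 0)], [], [],
    [(-1, 7, -1, 3), (3, 1, 2, 0)], [], [], [], [], [], [(-7, 1, -1, 4), (1, 3, -2, 0)], [], [],
    [], [], [], [(-1, 1, -22, 0)]]

/-- Certificates for `b = 47`. -/
def row47 : List (List (ℤ × ℤ × ℤ × ℤ)) :=
  [[], [], [(2, 1, -23, 0)], [(3, 1, -8, 0)], [(4, 1, -4, 0)], [(5, 1, -3, 5), (2, 3, -2, 0)],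
    [(1, 8, 1, 8), (-1, 1, 5, 0)], [(7, 1, -1, 2), (2, 1, -2, 0)],
    [(8, 1, -1, 8), (-1, 1, 5, 0)], [(7, 6, -1, 2), (2, 1, -2, 0)],
    [(3, 5, 2, 11), (-2, 1, 2, 0)],
    [(-3, 4, -1, 27), (1, 11, -1, 20), (7, 4, -1, 10), (-1, 1, 6, 0)], [(1, 4, 4, 0)],
    [(5, 4, -2, 3), (3, 1, -1, 0)],
    [(4, 7, 1, 27), (1, 11, -1, 20), (7, 4, -1, 10), (-1, 1, 6, 0)],
    [(-2, 3, -2, 8), (3, 2, 2, 0)], [(1, 3, 8, 0)], [(4, 3, -4, 0)],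
    [(7, 3, -1, 27), (1, 11, -1, 20), (7, 4, -1, 10), (-1, 1, 6, 0)],
    [(1, 5, 2, 3), (3, 1, -1, 0)], [(-1, 7, -1, 5), (1, 2, -5, 0)], [(6, 7, 1, 3), (1, 2, 2, 0)],
    [(-3, 2, -2, 5), (2, 3, -2, 0)], [(-1, 2, -8, 0)], [(1, 2, 23, 0)], [(3, 2, -8, 0)],
    [(5, 2, -2, 9), (1, 3, -2, 0)], [(1, 7, 1, 3), (1, 2, 2, 0)], [(8, 7, -1, 5), (1, 2, -5, 0)],
    [(4, 5, 2, 5), (1, 3, 1, 0)],
    [(-4, 3, -1, 11), (11, 1, 1, 11), (4, 7, 1, 10), (-1, 1, 6, 0)], [(-1, 3, -4, 0)],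
    [(2, 3, 8, 0)], [(5, 3, -2, 6), (-1, 2, 2, 0)],
    [(3, 7, 1, 11), (11, 1, 1, 11), (4, 7, 1, 10), (-1, 1, 6, 0)],
    [(-1, 4, -3, 3), (3, 1, 2, 0)], [(3, 4, 4, 0)],
    [(7, 4, -1, 11), (11, 1, 1, 11), (4, 7, 1, 10), (-1, 1, 6, 0)], [(2, 5, 2, 3), (3, 1, 2, 0)],
    [(-1, 6, -1, 4), (-1, 1, -2, 0)], [(-7, 1, -1, 2), (2, 1, 5, 0)],
    [(-6, 1, -1, 4), (-1, 1, -2, 0)], [(7, 8, 1, 2), (2, 1, 5, 0)],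
    [(-4, 1, -2, 3), (3, 1, -1, 0)], [(-3, 1, -4, 0)], [(-2, 1, -8, 0)], [(-1, 1, -23, 0)]]

/-- Certificates for `b = 49`. -/
def row49 : List (List (ℤ × ℤ × ℤ × ℤ)) :=
  [[], [], [(2, 1, -24, 0)], [(3, 1, -8, 0)], [(4, 1, -4, 0)], [(5, 1, -2, 5), (1, 2, 4, 0)],
    [(6, 1, -2, 6), (1, 2, -6, 0)], [], [], [(5, 6, 2, 10), (-1, 1, 6, 0)],
    [(1, 5, 2, 2), (2, 1, -4, 0)], [(6, 5, -2, 10), (-1, 1, 6, 0)],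
    [(-1, 4, -2, 2), (2, 1, -4, 0)], [(3, 4, 4, 0)], [], [], [(-1, 3, -4, 0)], [(2, 3, 8, 0)],
    [(5, 3, -2, 9), (-2, 1, 2, 0)], [], [(2, 5, 2, 7), (3, 2, 2, 0)], [], [],
    [(-3, 2, -2, 4), (1, 3, -2, 0)], [(-1, 2, -8, 0)], [(1, 2, 24, 0)], [(3, 2, -8, 0)],
    [(5, 2, -2, 8), (2, 3, -2, 0)], [], [], [(3, 5, 2, 5), (-1, 2, 2, 0)], [],
    [(-2, 3, -2, 3), (3, 1, 2, 0)], [(1, 3, 8, 0)], [(4, 3, -4, 0)], [], [], [(1, 4, 4, 0)],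
    [(5, 4, -2, 8), (-1, 1, -4, 0)], [(-1, 5, -2, 2), (2, 1, 6, 0)],
    [(4, 5, 2, 8), (-1, 1, -4, 0)], [(1, 6, 2, 2), (2, 1, 6, 0)], [], [],
    [(-5, 1, -2, 6), (1, 2, -6, 0)], [(-4, 1, -2, 5), (1, 2, 4, 0)], [(-3, 1, -4, 0)],
    [(-2, 1, -8, 0)], [(-1, 1, -24, 0)]]

/-- Certificates for `b = 51`. -/
def row51 : List (List (ℤ × ℤ × ℤ × ℤ)) :=
  [[], [], [(2, 1, -25, 0)], [], [], [(5, 1, -3, 5), (1, 2, -5, 0)], [], [],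
    [(8, 1, -1, 3), (1, 2, -3, 0)], [], [], [(4, 5, 3, 8), (-1, 1, 5, 0)], [], [],
    [(5, 4, -3, 8), (-1, 1, 5, 0)], [], [], [], [], [], [(7, 8, 1, 4), (-1, 1, 3, 0)], [], [],
    [(8, 7, -1, 4), (-1, 1, 3, 0)], [], [], [(1, 2, 25, 0)], [], [],
    [(-1, 7, -1, 2), (2, 1, 3, 0)], [], [], [(1, 8, 1, 2), (2, 1, 3, 0)], [], [], [], [], [],
    [(-1, 4, -3, 2), (2, 1, 5, 0)], [], [], [(1, 5, 3, 2), (2, 1, 5, 0)], [], [],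
    [(-7, 1, -1, 3), (1, 2, -3, 0)], [], [], [(-4, 1, -3, 5), (1, 2, -5, 0)], [], [],
    [(-1, 1, -25, 0)]]

/-- Certificates for `b = 53`. -/
def row53 : List (List (ℤ × ℤ × ℤ × ℤ)) :=
  [[], [], [(2, 1, -26, 0)], [(3, 1, -9, 0)], [(4, 1, -4, 4), (-1, 1, -2, 0)],
    [(5, 1, -2, 5), (2, 3, 2, 0)], [(6, 1, -2, 6), (-1, 1, 4, 0)],
    [(7, 1, -1, 7), (3, 2, -2, 0)], [(8, 1, -1, 2), (-1, 1, 2, 0)],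
    [(1, 6, 2, 6), (-1, 1, 4, 0)], [(7, 6, -1, 3), (3, 1, -2, 0)], [(2, 5, 2, 6), (-1, 1, 4, 0)],
    [(7, 5, -1, 15), (-2, 1, 3, 0)], [(-1, 4, -2, 3), (3, 1, -2, 0)],
    [(3, 4, 5, 6), (-1, 1, 4, 0)], [(-1, 7, -1, 2), (-1, 1, 2, 0)], [(6, 7, 1, 4), (1, 3, 2, 0)],
    [(-2, 3, -2, 4), (1, 2, -4, 0)], [(1, 3, 9, 0)], [(4, 3, -5, 6), (-1, 1, 4, 0)],
    [(1, 8, 1, 2), (-1, 1, 2, 0)], [(-1, 5, -2, 4), (1, 2, -4, 0)],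
    [(4, 5, 3, 5), (1, 3, -1, 0)], [(2, 7, 1, 10), (3, 2, 3, 0)],
    [(-5, 2, -1, 6), (1, 3, -3, 0)], [(-3, 2, -2, 2), (2, 1, 4, 0)], [(-1, 2, -9, 0)],
    [(1, 2, 26, 0)], [(3, 2, -9, 0)], [(5, 2, -2, 6), (-1, 1, 4, 0)],
    [(7, 2, -1, 12), (2, 3, -3, 0)], [(5, 7, 1, 8), (-1, 2, 3, 0)], [(1, 5, 3, 3), (3, 1, 1, 0)],
    [(6, 5, -2, 4), (1, 2, -4, 0)], [(7, 8, 1, 2), (-1, 1, 2, 0)],
    [(-1, 3, -4, 3), (1, 2, 2, 0)], [(2, 3, 9, 0)], [(5, 3, -2, 4), (1, 2, -4, 0)],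
    [(1, 7, 1, 8), (2, 3, 2, 0)], [(8, 7, -1, 2), (-1, 1, 2, 0)], [(1, 4, 4, 4), (-1, 1, -2, 0)],
    [(5, 4, -3, 3), (3, 1, 1, 0)], [(-2, 5, -1, 3), (3, 1, 3, 0)], [(3, 5, 2, 2), (2, 1, 4, 0)],
    [(-1, 6, -1, 9), (-2, 1, -2, 0)], [(5, 6, 2, 2), (2, 1, 4, 0)],
    [(-7, 1, -1, 2), (-1, 1, 2, 0)], [(-6, 1, -1, 5), (-1, 2, -2, 0)],
    [(-5, 1, -2, 2), (2, 1, 4, 0)], [(-4, 1, -3, 3), (3, 1, 1, 0)],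
    [(-3, 1, -5, 4), (1, 2, -4, 0)], [(-2, 1, -9, 0)], [(-1, 1, -26, 0)]]

/-- Certificates for `b = 55`. -/
def row55 : List (List (ℤ × ℤ × ℤ × ℤ)) :=
  [[], [], [(2, 1, -27, 0)], [(3, 1, -9, 0)], [(4, 1, -5, 4), (-1, 1, 3, 0)], [], [],
    [(1, 8, 1, 0)], [(8, 1, -1, 0)], [(8, 7, -1, 0)], [], [], [],
    [(-3, 4, -1, 21), (5, 3, 1, 0)], [(1, 4, 5, 4), (-1, 1, 3, 0)], [], [],
    [(-4, 3, -1, 18), (3, 5, -1, 0)], [(-1, 3, -5, 3), (1, 2, -3, 0)], [(2, 3, 9, 0)], [], [],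
    [], [], [(3, 7, 1, 17), (5, 2, 1, 0)], [], [], [(-1, 2, -9, 0)], [(1, 2, 27, 0)],
    [(3, 2, -9, 0)], [], [], [(4, 7, 1, 13), (-3, 2, 1, 0)], [], [], [], [], [(1, 3, 9, 0)],
    [(4, 3, -4, 6), (-1, 1, -3, 0)], [(7, 3, -1, 12), (2, 5, -1, 0)], [], [],
    [(3, 4, 4, 6), (-1, 1, -3, 0)], [(7, 4, -1, 9), (-2, 3, 1, 0)], [], [], [], [(-1, 7, -1, 0)],
    [(-7, 1, -1, 0)], [(7, 8, 1, 0)], [], [], [(-3, 1, -4, 4), (1, 2, 3, 0)], [(-2, 1, -9, 0)],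
    [(-1, 1, -27, 0)]]

/-- Certificates for `b = 57`. -/
def row57 : List (List (ℤ × ℤ × ℤ × ℤ)) :=
  [[], [], [(2, 1, -28, 0)], [], [], [(5, 1, -3, 2), (-1, 1, 2, 0)], [], [], [(7, 8, 1, 0)], [],
    [], [(-2, 5, -1, 10), (-3, 1, 1, 0)], [], [], [(-1, 4, -3, 2), (-1, 1, 2, 0)], [], [],
    [(5, 7, 1, 10), (-3, 1, 1, 0)], [], [], [], [], [], [(1, 5, 3, 2), (-1, 1, 2, 0)], [], [],
    [(-5, 2, -1, 4), (-1, 3, 1, 0)], [], [], [(1, 2, 28, 0)], [], [],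
    [(7, 2, -1, 10), (-3, 1, 1, 0)], [], [], [(4, 5, 3, 2), (-1, 1, 2, 0)], [], [], [], [], [],
    [(2, 7, 1, 4), (-1, 3, 1, 0)], [], [], [(5, 4, -3, 2), (-1, 1, 2, 0)], [], [],
    [(7, 5, -1, 4), (-1, 3, 1, 0)], [], [], [(1, 8, 1, 0)], [], [],
    [(-4, 1, -3, 2), (-1, 1, 2, 0)], [], [], [(-1, 1, -28, 0)]]

/-- Certificates for `b = 59`. -/
def row59 : List (List (ℤ × ℤ × ℤ × ℤ)) :=
  [[], [], [(2, 1, -29, 0)], [(3, 1, -10, 0)], [(4, 1, -5, 0)], [(5, 1, -3, 0)], [(6, 1, -2, 0)],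
    [(7, 1, -2, 7), (3, 4, -2, 0)], [(8, 1, -1, 2), (-1, 1, -1, 0)],
    [(9, 1, -1, 9), (1, 3, -2, 0)], [(1, 6, 2, 0)], [(7, 6, -2, 22), (-3, 1, 2, 0)],
    [(1, 5, 3, 0)], [(6, 5, -2, 0)], [(8, 9, 1, 11), (-2, 1, 2, 0)], [(1, 4, 5, 0)],
    [(5, 4, -3, 0)], [(1, 7, 2, 18), (4, 3, 2, 0)], [(8, 7, -1, 2), (-1, 1, -1, 0)],
    [(-2, 3, -2, 0)], [(1, 3, 10, 0)], [(4, 3, -5, 0)], [(-1, 8, -1, 8), (3, 2, 2, 0)],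
    [(7, 8, 1, 2), (-1, 1, -1, 0)], [(2, 5, 2, 0)], [(7, 5, -1, 8), (2, 3, -2, 0)],
    [(5, 7, 1, 7), (3, 2, 2, 0)], [(-5, 2, -1, 3), (3, 1, 2, 0)], [(-3, 2, -2, 0)],
    [(-1, 2, -10, 0)], [(1, 2, 29, 0)], [(3, 2, -10, 0)], [(5, 2, -2, 0)],
    [(7, 2, -1, 9), (-2, 1, 2, 0)], [(2, 7, 1, 5), (-1, 2, 2, 0)],
    [(-2, 5, -1, 4), (1, 3, -2, 0)], [(3, 5, 2, 0)], [(1, 8, 1, 2), (-1, 1, -1, 0)],
    [(9, 8, -1, 6), (-1, 2, 2, 0)], [(-1, 3, -5, 0)], [(2, 3, 10, 0)], [(5, 3, -2, 0)],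
    [(-1, 7, -1, 2), (-1, 1, -1, 0)], [(6, 7, 2, 8), (-1, 3, 2, 0)], [(-1, 4, -3, 0)],
    [(3, 4, 5, 0)], [(1, 9, 1, 3), (3, 1, 2, 0)], [(-1, 5, -2, 0)], [(4, 5, 3, 0)],
    [(-1, 6, -2, 4), (4, 1, 2, 0)], [(5, 6, 2, 0)], [(-8, 1, -1, 5), (2, 3, -2, 0)],
    [(-7, 1, -1, 2), (-1, 1, -1, 0)], [(-6, 1, -2, 19), (1, 4, -2, 0)], [(-5, 1, -2, 0)],
    [(-4, 1, -3, 0)], [(-3, 1, -5, 0)], [(-2, 1, -10, 0)], [(-1, 1, -29, 0)]]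

/-- Certificates for `b = 61`. -/
def row61 : List (List (ℤ × ℤ × ℤ × ℤ)) :=
  [[], [], [(2, 1, -30, 0)], [(3, 1, -10, 0)], [(4, 1, -5, 0)], [(5, 1, -3, 0)], [(6, 1, -2, 0)],
    [(7, 1, -1, 7), (2, 3, 3, 0)], [(8, 1, -1, 3), (1, 2, 2, 0)], [(2, 7, 1, 8), (-1, 1, 5, 0)],
    [(-1, 6, -1, 3), (3, 1, -3, 0)], [(5, 6, 2, 0)], [(-1, 5, -2, 0)], [(4, 5, 3, 0)],
    [(13, 14, 1, 96), (-4, 5, 1, 11), (7, 6, -2, 22), (-3, 1, 2, 0)], [(-1, 4, -3, 0)],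
    [(3, 4, 5, 0)], [(7, 4, -1, 19), (-4, 1, 1, 2), (-1, 1, 2, 0)],
    [(4, 7, 1, 17), (-1, 4, 1, 2), (-1, 1, 2, 0)],
    [(-4, 3, -1, 14), (1, 5, -1, 2), (-1, 1, 2, 0)], [(-1, 3, -5, 0)], [(2, 3, 10, 0)],
    [(5, 3, -2, 0)], [(1, 8, 1, 2), (2, 1, -2, 0)], [(-2, 5, -1, 5), (1, 2, -5, 0)],
    [(3, 5, 2, 0)], [(-1, 7, -1, 2), (2, 1, -2, 0)], [(6, 7, 1, 9), (-1, 2, -3, 0)],
    [(-5, 2, -1, 2), (2, 1, 5, 0)], [(-3, 2, -2, 0)], [(-1, 2, -10, 0)], [(1, 2, 30, 0)],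
    [(3, 2, -10, 0)], [(5, 2, -2, 0)], [(7, 2, -1, 8), (-1, 1, 5, 0)],
    [(10, 9, -1, 14), (-1, 2, 5, 0)], [(8, 7, -1, 4), (-1, 1, -2, 0)], [(2, 5, 2, 0)],
    [(7, 5, -1, 5), (1, 2, -5, 0)], [(7, 8, 1, 4), (-1, 1, -2, 0)], [(-2, 3, -2, 0)],
    [(1, 3, 10, 0)], [(4, 3, -5, 0)], [(7, 3, -1, 10), (4, 5, -1, 2), (-1, 1, 2, 0)],
    [(3, 7, 1, 7), (5, 4, 1, 2), (-1, 1, 2, 0)], [(-3, 4, -1, 5), (5, 1, 1, 2), (-1, 1, 2, 0)],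
    [(1, 4, 5, 0)], [(5, 4, -3, 0)],
    [(14, 13, -1, 29), (-5, 4, 1, 43), (6, 7, 2, 8), (-1, 3, 2, 0)], [(1, 5, 3, 0)],
    [(6, 5, -2, 0)], [(1, 6, 2, 0)], [(-9, 1, -1, 20), (2, 3, -5, 0)],
    [(5, 7, 1, 2), (2, 1, 5, 0)], [(-7, 1, -1, 3), (1, 2, 2, 0)], [(1, 10, 1, 3), (3, 1, 5, 0)],
    [(-5, 1, -2, 0)], [(-4, 1, -3, 0)], [(-3, 1, -5, 0)], [(-2, 1, -10, 0)], [(-1, 1, -30, 0)]]

/-- Certificates for `b = 63`. -/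
def row63 : List (List (ℤ × ℤ × ℤ × ℤ)) :=
  [[], [], [(2, 1, -31, 0)], [], [], [(5, 1, -3, 2), (-1, 1, -1, 0)], [], [], [], [], [],
    [(11, 1, -1, 11), (-3, 4, 1, 27), (1, 11, 1, 20), (7, 4, 1, 10), (-1, 1, -5, 0)], [], [], [],
    [], [], [(5, 4, -3, 2), (-1, 1, -1, 0)], [], [],
    [(11, 10, -1, 34), (3, 7, -1, 11), (11, 1, -1, 11), (4, 7, -1, 10), (-1, 1, -5, 0)], [], [],
    [(1, 11, 1, 30), (-4, 3, 1, 11), (11, 1, -1, 11), (4, 7, -1, 10), (-1, 1, -5, 0)], [], [],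
    [(4, 5, 3, 2), (-1, 1, -1, 0)], [], [], [], [], [], [(1, 2, 31, 0)], [], [], [], [], [],
    [(1, 5, 3, 2), (-1, 1, -1, 0)], [], [],
    [(10, 11, 1, 18), (7, 3, 1, 27), (1, 11, 1, 20), (7, 4, 1, 10), (-1, 1, -5, 0)], [], [],
    [(-1, 10, -1, 14), (4, 7, -1, 27), (1, 11, 1, 20), (7, 4, 1, 10), (-1, 1, -5, 0)], [], [],
    [(-1, 4, -3, 2), (-1, 1, -1, 0)], [], [], [], [], [],
    [(-10, 1, -1, 37), (7, 4, 1, 11), (11, 1, -1, 11), (4, 7, -1, 10), (-1, 1, -5, 0)], [], [],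
    [], [], [], [(-4, 1, -3, 2), (-1, 1, -1, 0)], [], [], [(-1, 1, -31, 0)]]

/-- Certificates for `b = 65`. -/
def row65 : List (List (ℤ × ℤ × ℤ × ℤ)) :=
  [[], [], [(2, 1, -32, 0)], [(3, 1, -11, 0)], [(4, 1, -5, 4), (-1, 1, -2, 0)], [], [],
    [(7, 1, -2, 7), (2, 3, -3, 0)], [(-1, 8, -1, 6), (-1, 1, 4, 0)],
    [(9, 1, -1, 2), (2, 1, 4, 0)], [], [], [(7, 6, -2, 17), (-2, 1, 3, 0)], [], [], [], [],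
    [(3, 4, 6, 6), (-1, 1, 4, 0)], [(7, 4, -1, 16), (4, 5, -1, 0)],
    [(3, 7, 1, 14), (-1, 4, 1, 0)], [], [], [(1, 3, 11, 0)], [(4, 3, -6, 6), (-1, 1, 4, 0)],
    [(7, 3, -1, 15), (-4, 1, 1, 0)], [], [], [], [(1, 7, 2, 11), (3, 2, 3, 0)],
    [(1, 9, 1, 4), (1, 2, -4, 0)], [], [], [(-1, 2, -11, 0)], [(1, 2, 32, 0)], [(3, 2, -11, 0)],
    [], [], [(8, 9, 1, 4), (1, 2, -4, 0)], [(6, 7, 2, 9), (-1, 2, 3, 0)], [], [], [],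
    [(-4, 3, -1, 5), (5, 1, 1, 0)], [(-1, 3, -5, 3), (1, 2, 2, 0)], [(2, 3, 11, 0)], [], [],
    [(4, 7, 1, 6), (5, 4, 1, 0)], [(-3, 4, -1, 4), (1, 5, -1, 0)],
    [(1, 4, 5, 4), (-1, 1, -2, 0)], [], [], [], [], [(-1, 6, -2, 3), (3, 1, 3, 0)], [], [],
    [(-8, 1, -1, 6), (-1, 1, 4, 0)], [(9, 8, -1, 2), (2, 1, 4, 0)],
    [(-6, 1, -2, 13), (1, 3, -3, 0)], [], [], [(-3, 1, -6, 4), (1, 2, -4, 0)], [(-2, 1, -11, 0)],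
    [(-1, 1, -32, 0)]]

/-- Certificates for `b = 67`. -/
def row67 : List (List (ℤ × ℤ × ℤ × ℤ)) :=
  [[], [], [(2, 1, -33, 0)], [(3, 1, -11, 0)], [(4, 1, -6, 4), (-1, 1, 3, 0)],
    [(5, 1, -4, 5), (2, 3, -2, 0)], [(6, 1, -2, 6), (-1, 1, -3, 0)],
    [(7, 1, -1, 7), (3, 4, 2, 0)], [(8, 1, -1, 8), (2, 3, 2, 0)], [(9, 1, -1, 4), (-1, 1, 3, 0)],
    [(3, 7, 1, 15), (-2, 1, 3, 0)], [(-1, 6, -1, 4), (4, 1, -2, 0)],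
    [(5, 6, 2, 2), (2, 1, -3, 0)], [(-2, 5, -1, 2), (-1, 1, 2, 0)],
    [(3, 5, 2, 2), (2, 1, -3, 0)], [(1, 9, 1, 4), (-1, 1, 3, 0)],
    [(-3, 4, -1, 12), (2, 3, -3, 0)], [(1, 4, 6, 4), (-1, 1, 3, 0)],
    [(5, 4, -3, 3), (3, 1, -1, 0)], [(-1, 7, -1, 3), (3, 1, -2, 0)],
    [(6, 7, 1, 8), (-1, 3, -2, 0)], [(-4, 3, -1, 10), (3, 2, 3, 0)],
    [(-1, 3, -6, 3), (1, 2, -3, 0)], [(2, 3, 11, 0)], [(5, 3, -2, 4), (1, 2, 3, 0)],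
    [(-1, 8, -1, 3), (1, 2, -3, 0)], [(7, 8, 1, 5), (-1, 2, -2, 0)],
    [(1, 5, 3, 3), (3, 1, -1, 0)], [(6, 5, -2, 4), (1, 2, 3, 0)], [(2, 7, 1, 2), (-1, 1, 2, 0)],
    [(9, 7, -1, 35), (-2, 5, 1, 4), (1, 3, 2, 0)], [(-5, 2, -1, 2), (-1, 1, 2, 0)],
    [(-3, 2, -2, 2), (2, 1, -3, 0)], [(-1, 2, -11, 0)], [(1, 2, 33, 0)], [(3, 2, -11, 0)],
    [(5, 2, -2, 6), (-1, 1, -3, 0)], [(7, 2, -1, 2), (-1, 1, 2, 0)],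
    [(7, 9, 1, 27), (-5, 2, 1, 3), (3, 1, -2, 0)], [(5, 7, 1, 2), (-1, 1, 2, 0)],
    [(-1, 5, -2, 4), (1, 2, 3, 0)], [(4, 5, 3, 5), (1, 3, 1, 0)], [(1, 8, 1, 7), (3, 2, -2, 0)],
    [(9, 8, -1, 3), (1, 2, -3, 0)], [(-2, 3, -2, 4), (1, 2, 3, 0)], [(1, 3, 11, 0)],
    [(4, 3, -5, 6), (-1, 1, -3, 0)], [(7, 3, -1, 8), (-1, 2, 3, 0)],
    [(1, 7, 1, 18), (4, 3, -2, 0)], [(8, 7, -1, 9), (-2, 1, -2, 0)],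
    [(-1, 4, -4, 3), (3, 1, 2, 0)], [(3, 4, 5, 6), (-1, 1, -3, 0)],
    [(7, 4, -1, 6), (1, 3, -3, 0)], [(8, 9, 1, 2), (2, 1, 3, 0)], [(2, 5, 2, 6), (-1, 1, -3, 0)],
    [(7, 5, -1, 2), (-1, 1, 2, 0)], [(1, 6, 2, 6), (-1, 1, -3, 0)],
    [(7, 6, -1, 22), (-3, 1, -2, 0)], [(4, 7, 1, 3), (3, 1, 3, 0)],
    [(-8, 1, -1, 2), (2, 1, 3, 0)], [(-7, 1, -1, 4), (1, 3, 2, 0)],
    [(-6, 1, -1, 19), (1, 4, 2, 0)], [(-5, 1, -2, 2), (2, 1, -3, 0)],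
    [(-4, 1, -3, 3), (3, 1, -1, 0)], [(-3, 1, -5, 4), (1, 2, 3, 0)], [(-2, 1, -11, 0)],
    [(-1, 1, -33, 0)]]

/-- Certificates for `b = 69`. -/
def row69 : List (List (ℤ × ℤ × ℤ × ℤ)) :=
  [[], [], [(2, 1, -34, 0)], [], [], [(5, 1, -3, 5), (1, 2, 4, 0)], [], [],
    [(8, 1, -1, 8), (3, 2, -2, 0)], [], [], [(8, 7, -1, 3), (3, 1, -2, 0)], [], [],
    [(1, 5, 3, 2), (2, 1, -4, 0)], [], [], [(-1, 4, -3, 2), (2, 1, -4, 0)], [], [],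
    [(2, 7, 1, 0)], [], [], [], [], [], [(1, 8, 1, 5), (2, 3, 2, 0)], [], [], [(7, 5, -1, 0)],
    [], [], [(-5, 2, -1, 0)], [], [], [(1, 2, 34, 0)], [], [], [(7, 2, -1, 0)], [], [],
    [(-2, 5, -1, 0)], [], [], [(7, 8, 1, 9), (1, 3, 2, 0)], [], [], [], [], [], [(5, 7, 1, 0)],
    [], [], [(5, 4, -3, 8), (-1, 1, -4, 0)], [], [], [(4, 5, 3, 8), (-1, 1, -4, 0)], [], [],
    [(-1, 7, -1, 11), (-2, 1, -2, 0)], [], [], [(-7, 1, -1, 6), (-1, 2, -2, 0)], [], [],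
    [(-4, 1, -3, 5), (1, 2, 4, 0)], [], [], [(-1, 1, -34, 0)]]

/-- All rows. -/
def rows : List (ℤ × List (List (ℤ × ℤ × ℤ × ℤ))) :=
  [(1, row1), (3, row3), (5, row5), (7, row7), (9, row9), (11, row11), (13, row13), (15,
    row15), (17, row17), (19, row19), (21, row21), (23, row23), (25, row25), (27, row27),
    (29, row29), (31, row31), (33, row33), (35, row35), (37, row37), (39, row39), (41,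
    row41), (43, row43), (45, row45), (47, row47), (49, row49), (51, row51), (53, row53),
    (55, row55), (57, row57), (59, row59), (61, row61), (63, row63), (65, row65), (67,
    row67), (69, row69)]

/-- The residues for which no certificate is needed. -/
def skip (b c : ℤ) : Bool :=
  !(Int.gcd c b == 1) || !(Int.gcd (c - 1) b == 1) || ((b == 49) && ((c == 19) || (c == 31)))

/-- Check a row. -/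
def checkRow (b : ℤ) : ℤ → List (List (ℤ × ℤ × ℤ × ℤ)) → Bool
  | _, [] => true
  | c, p :: t => (skip b c || check b c p) && checkRow b (c + 1) t

theorem good_of_checkRow (b : ℤ) (L : List (List (ℤ × ℤ × ℤ × ℤ))) :
    ∀ c : ℤ, checkRow b c L = true → ∀ j : ℕ, j < L.length → skip b (c + j) = false →
      Good b (c + j) := by
  induction L with
  | nil => intro c _ j hj; simp at hj
  | cons p t ih =>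
    intro c h j hj hs
    simp only [checkRow, Bool.and_eq_true, Bool.or_eq_true] at h
    obtain ⟨h1, h2⟩ := h
    cases j with
    | zero =>
      simp only [Nat.cast_zero, add_zero] at hs ⊢
      rcases h1 with h1 | h1
      · rw [hs] at h1; exact absurd h1 (by decide)
      · exact good_of_check p b c h1
    | succ j =>
      have e : c + ((j + 1 : ℕ) : ℤ) = c + 1 + (j : ℤ) := by push_cast; ring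
      rw [e] at hs ⊢
      exact ih (c + 1) h2 j (by simpa using hj) hs

theorem rows_check :
    (rows.all fun x => (x.2.length == x.1.toNat) && checkRow x.1 0 x.2) = true := by
  decide +kernel

theorem rows_fst : rows.map Prod.fst = (List.range 35).map fun i : ℕ => (2 * (i : ℤ) + 1) := by
  decide +kernel

theorem good_small {b c : ℤ} (hb : 0 < b) (hb1 : b < 71) (hodd : Odd b) (hc : 0 ≤ c)
    (hcb : c < b) (hs : skip b c = false) : Good b c := by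
  obtain ⟨m, hm⟩ := hodd
  have hmem : b ∈ rows.map Prod.fst := by
    rw [rows_fst, List.mem_map]
    refine ⟨m.toNat, ?_, ?_⟩
    · rw [List.mem_range]; omega
    · rw [Int.toNat_of_nonneg (by omega)]; omega
  rw [List.mem_map] at hmem
  obtain ⟨⟨b', L⟩, hx, hb'⟩ := hmem
  simp only at hb'
  subst hb'
  have h := rows_check
  rw [List.all_eq_true] at h
  have h2 := h _ hx
  simp only [Bool.and_eq_true, beq_iff_eq] at h2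
  obtain ⟨hlen, hrow⟩ := h2
  have := good_of_checkRow b' L 0 hrow c.toNat (by rw [hlen]; omega)
  rw [zero_add, Int.toNat_of_nonneg hc] at this
  exact this hs

end Pool.Agent.CSM
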